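import Pool.Agent.H55.GWP.COC

set_option autoImplicit false

namespace Pool.Agent.Results.MP_213ba5_lc.InfiniteIndex

/-- If the free group on the generators has a subgroup `H` of infinite index that contains the
normal closure of the relators and has computably enumerable complement, then the word problem
is generically computable. -/
theorem result {k : ℕ} (rels : Set (FreeGroup (Fin k)))
    (H : Subgroup (FreeGroup (Fin k))) (hnorm : Subgroup.normalClosure rels ≤ H)
    (hidx : H.index = 0)
    (hce : REPred (fun w : List (Fin k × Bool) => FreeGroup.mk w ∉ H)) :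
    ∃ f : List (Fin k × Bool) →. Bool,
      Partrec f ∧
      (∀ w : List (Fin k × Bool), ∀ b ∈ f w,
        (b = true ↔ FreeGroup.mk w ∈ Subgroup.normalClosure rels)) ∧
      Filter.Tendsto
        (fun n : ℕ =>
          ({w : List (Fin k × Bool) | w.length ≤ n ∧ (f w).Dom}.ncard : ℝ) /
            ({w : List (Fin k × Bool) | w.length ≤ n}.ncard : ℝ))
        Filter.atTop (nhds 1) :=
  GWP.coc_generic rels H hnorm hidx hce

end Pool.Agent.Results.MP_213ba5_lc.InfiniteIndex
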