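import Pool.Agent.H73.GMS.All

set_option autoImplicit false

namespace Pool.Agent.Results.MP_213ba5_lc.ManySimpleQuotients

/-- An infinite finitely presented group `P = ⟨a_1, …, a_k | rels⟩` has generically computable word
problem, or it has a smallest subgroup `K` of finite index, and for every finite set `T ⊆ K` whose
normal closure in `K` is not `K` there are continuum many pairwise non-isomorphic infinite simple
quotients `K / M x` with `T ⊆ M x`, such that the complement of `M x` is not computably enumerable.
All subgroups are subgroups of the free group which contain the normal closure of the relators. -/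
theorem result {k : ℕ} (rels : Finset (FreeGroup (Fin k)))
    (hinf : (Subgroup.normalClosure (rels : Set (FreeGroup (Fin k)))).index = 0) :
    (∃ f : List (Fin k × Bool) →. Bool,
      Partrec f ∧
      (∀ w : List (Fin k × Bool), ∀ b ∈ f w,
        (b = true ↔ FreeGroup.mk w ∈
          Subgroup.normalClosure (rels : Set (FreeGroup (Fin k))))) ∧
      Filter.Tendsto
        (fun n : ℕ =>
          ({w : List (Fin k × Bool) | w.length ≤ n ∧ (f w).Dom}.ncard : ℝ) /
            ({w : List (Fin k × Bool) | w.length ≤ n}.ncard : ℝ))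
        Filter.atTop (nhds 1)) ∨
    ∃ K : Subgroup (FreeGroup (Fin k)),
      K.Normal ∧ Subgroup.normalClosure (rels : Set (FreeGroup (Fin k))) ≤ K ∧ K.index ≠ 0 ∧
      (∀ L : Subgroup (FreeGroup (Fin k)),
        Subgroup.normalClosure (rels : Set (FreeGroup (Fin k))) ≤ L → L.index ≠ 0 → K ≤ L) ∧
      ∀ T : Finset K,
        Subgroup.normalClosure ((T : Set K) ∪ {x : K | (x : FreeGroup (Fin k)) ∈
          Subgroup.normalClosure (rels : Set (FreeGroup (Fin k)))}) ≠ ⊤ →
        ∃ M : (ℕ → Bool) → Subgroup K, ∃ _ : ∀ x, (M x).Normal,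
          (∀ x, (T : Set K) ⊆ M x ∧
            Subgroup.normalClosure (rels : Set (FreeGroup (Fin k))) ≤ (M x).map K.subtype ∧
            IsSimpleGroup (K ⧸ M x) ∧ Infinite (K ⧸ M x) ∧
            ¬ REPred (fun w : List (Fin k × Bool) => FreeGroup.mk w ∉ (M x).map K.subtype)) ∧
          ∀ x y, x ≠ y → IsEmpty ((K ⧸ M x) ≃* (K ⧸ M y)) :=
  GMS.main rels hinf

end Pool.Agent.Results.MP_213ba5_lc.ManySimpleQuotients
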