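import Pool.Agent.H73.GWQ.Fin

set_option autoImplicit false

namespace Pool.Agent.Results.MP_213ba5_lc.QuasiTrees

/-- A finitely generated group `P = ⟨a_1, …, a_k | rels⟩` with a quotient `G` that acts on a
quasi-tree with a loxodromic WPD element `h` such that `⟨h⟩` has infinite index in `G` has
generically computable word problem, even with exponentially small exceptional sets. -/
theorem result {G V W : Type*} [Group G] [MulAction G V]
    {X : SimpleGraph V} (hX : X.Connected)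
    (act : ∀ (g : G) (u v : V), X.Adj u v → X.Adj (g • u) (g • v))
    {T : SimpleGraph W} (hT : T.IsTree) (F : V → W) (L : ℕ)
    (hF : ∀ u v : V, X.dist u v ≤ L * (T.dist (F u) (F v) + 1) ∧
      T.dist (F u) (F v) ≤ L * (X.dist u v + 1))
    {k : ℕ} (rels : Set (FreeGroup (Fin k))) (φ : FreeGroup (Fin k) →* G)
    (hφ : Function.Surjective φ) (hrels : ∀ r ∈ rels, φ r = 1)
    (o : V) (h : G) (A : ℕ) (hlox : ∀ n : ℕ, n ≤ A * (X.dist o (h ^ n • o) + 1))
    (hwpd : ∀ R : ℕ, ∃ n : ℕ,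
      {x : G | X.dist o (x • o) ≤ R ∧ X.dist (h ^ n • o) (x • h ^ n • o) ≤ R}.Finite)
    (hidx : (Subgroup.zpowers h).index = 0) :
    ∃ f : List (Fin k × Bool) →. Bool,
      Partrec f ∧
      (∀ w : List (Fin k × Bool), ∀ b ∈ f w,
        (b = true ↔ FreeGroup.mk w ∈ Subgroup.normalClosure rels)) ∧
      (∃ C κ : ℝ, 0 < C ∧ 0 < κ ∧ κ < 1 ∧
        ∀ n : ℕ, ({w : List (Fin k × Bool) | w.length = n ∧ ¬ (f w).Dom}.ncard : ℝ) ≤
          C * κ ^ n * ({w : List (Fin k × Bool) | w.length = n}.ncard : ℝ)) ∧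
      Filter.Tendsto
        (fun n : ℕ =>
          ({w : List (Fin k × Bool) | w.length ≤ n ∧ (f w).Dom}.ncard : ℝ) /
            ({w : List (Fin k × Bool) | w.length ≤ n}.ncard : ℝ))
        Filter.atTop (nhds 1) :=
  GWQ.FIN hX act hT F L hF rels φ hφ hrels o h A hlox hwpd hidx

end Pool.Agent.Results.MP_213ba5_lc.QuasiTrees
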