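import Pool.Agent.H73.GWT.All

set_option autoImplicit false

namespace Pool.Agent.Results.MP_213ba5_lc.TreePatterns

/-- A finitely generated group `P = ⟨a_1, …, a_k | rels⟩` with a quotient `G` that acts on a tree
with two elements `a`, `b` that move the vertex `o` by the same distance without cancellation and
such that no element fixing `o` carries `a • o` to `b • o` has generically computable word problem,
even with exponentially small exceptional sets. No condition on the stabilisers. -/
theorem result {G V : Type*} [Group G] [MulAction G V] {T : SimpleGraph V}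
    (hT : T.IsTree) (act : ∀ (g : G) (u v : V), T.Adj u v → T.Adj (g • u) (g • v))
    {k : ℕ} (rels : Set (FreeGroup (Fin k))) (φ : FreeGroup (Fin k) →* G)
    (hφ : Function.Surjective φ) (hrels : ∀ r ∈ rels, φ r = 1)
    (o : V) (a b : G) (hpos : 0 < T.dist o (a • o)) (hab : T.dist o (a • o) = T.dist o (b • o))
    (hal : ∀ x ∈ ({a, b} : Set G), ∀ y ∈ ({a, b} : Set G),
      T.dist (x⁻¹ • o) (y • o) = T.dist o (x • o) + T.dist o (y • o))
    (hno : ∀ g : G, g • o = o → g • a • o ≠ b • o) :
    ∃ f : List (Fin k × Bool) →. Bool,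
      Partrec f ∧
      (∀ w : List (Fin k × Bool), ∀ b ∈ f w,
        (b = true ↔ FreeGroup.mk w ∈ Subgroup.normalClosure rels)) ∧
      (∃ C κ : ℝ, 0 < C ∧ 0 < κ ∧ κ < 1 ∧
        ∀ n : ℕ, ({w : List (Fin k × Bool) | w.length = n ∧ ¬ (f w).Dom}.ncard : ℝ) ≤
          C * κ ^ n * ({w : List (Fin k × Bool) | w.length = n}.ncard : ℝ)) ∧
      Filter.Tendsto
        (fun n : ℕ =>
          ({w : List (Fin k × Bool) | w.length ≤ n ∧ (f w).Dom}.ncard : ℝ) /
            ({w : List (Fin k × Bool) | w.length ≤ n}.ncard : ℝ))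
        Filter.atTop (nhds 1) :=
  GWT.RES (fun S => GWT.AL3 S G V (GWT.AL1 G V) (GWT.AL2 G V (GWT.AL1 G V)))
    (GWT.AL4 (GWT.AL1 G V) (GWT.AL2 G V (GWT.AL1 G V)))
    (fun _ C => GWT.aGFN C) hT act rels φ hφ hrels o a b hpos hab hal hno

end Pool.Agent.Results.MP_213ba5_lc.TreePatterns
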